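import Pool.Agent.Trunc.GraphDefs
import Pool.Agent.Trunc.Final

/-!
# The strong chromatic index of the truncation of every finite simple cubic graph is 6

Full positive answer to Q1 of MP_40dd6f_co.  `truncation G` has the darts of `G` as vertices; the
three darts leaving a vertex form a triangle and every dart is adjacent to its reversal.
-/

namespace Pool.Agent.Results.MP_40dd6f_co.StrongIndexSix

open Pool.Agent.Trunc

/-- For every finite (nonempty) simple graph `G` in which all degrees are 3, the strong chromatic
index of its truncation equals 6. -/
theorem result {V : Type*} [Fintype V] [Nonempty V] (G : SimpleGraph V) [DecidableRel G.Adj]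
    (hG : ∀ v, G.degree v = 3) : strongChromaticIndex (truncation G) = 6 :=
  strong_index_eq_six G hG

end Pool.Agent.Results.MP_40dd6f_co.StrongIndexSix
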